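import Mathlib

/-!
# Edge-criticality for the domination number and for the lower irredundance number

* There is a graph on 11 vertices with `γ = 4` and `ir = 3` which is `γ`-edge-critical but not
  `ir`-edge-critical.
* There is a graph on 10 vertices with `γ = ir = 3` which is `ir`-edge-critical but not
  `γ`-edge-critical.
-/

set_option autoImplicit false

namespace Pool.Agent.Results.MP_7f565b_co.CriticalDiffer

section defs

variable {V : Type*} (G : SimpleGraph V)

/-- `S` is a dominating set: every vertex is in `S` or has a neighbour in `S`. -/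
def Dominating (S : Finset V) : Prop := ∀ v, ∃ s ∈ S, v = s ∨ G.Adj s v

/-- The domination number: the minimum size of a dominating set. -/
noncomputable def gamma : ℕ := sInf {k | ∃ S : Finset V, Dominating G S ∧ S.card = k}

/-- `S` is irredundant: every `s ∈ S` has a private neighbour, that is, some `v` in the closed
neighbourhood of `s` and in no closed neighbourhood of another element of `S`. -/
def Irredundant (S : Finset V) : Prop :=
  ∀ s ∈ S, ∃ v, (v = s ∨ G.Adj s v) ∧ ∀ t ∈ S, t ≠ s → ¬ (v = t ∨ G.Adj t v)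

/-- `S` is a maximal irredundant set (under inclusion). -/
def MaxIrredundant (S : Finset V) : Prop :=
  Irredundant G S ∧ ∀ T : Finset V, S ⊂ T → ¬ Irredundant G T

/-- The lower irredundance number: the minimum size of a maximal irredundant set. -/
noncomputable def ir : ℕ := sInf {k | ∃ S : Finset V, MaxIrredundant G S ∧ S.card = k}

/-- `G` is `π`-edge-critical: `π (G + uv) < π G` for every missing edge `uv`. -/
def EdgeCritical (π : SimpleGraph V → ℕ) (G : SimpleGraph V) : Prop :=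
  ∀ u v, u ≠ v → ¬ G.Adj u v → π (G ⊔ SimpleGraph.edge u v) < π G

end defs

section comp

variable {n : ℕ} (a : Fin n → Fin n → Bool)

/-- closed adjacency -/
def cl (s v : Fin n) : Bool := decide (v = s) || a s v

def domB (l : List (Fin n)) : Bool := (List.finRange n).all fun v => l.any fun s => cl a s v

def irrB (l : List (Fin n)) : Bool :=
  l.all fun s => (List.finRange n).any fun v => cl a s v &&
    l.all fun t => decide (t = s) || !cl a t v

def maxB (l : List (Fin n)) : Bool :=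
  irrB a l && (List.finRange n).all fun v => l.contains v || !irrB a (v :: l)

/-- adding an edge -/
def addE (u v i j : Fin n) : Bool :=
  a i j || (decide (i = u) && decide (j = v)) || (decide (i = v) && decide (j = u))

variable {a} {G : SimpleGraph (Fin n)} (hG : ∀ i j, G.Adj i j ↔ a i j = true)

include hG

theorem cl_iff (s v : Fin n) : cl a s v = true ↔ (v = s ∨ G.Adj s v) := by
  simp [cl, hG]

theorem dom_iff (l : List (Fin n)) : Dominating G l.toFinset ↔ domB a l = true := by
  simp only [Dominating, domB, List.all_eq_true, List.mem_finRange, true_implies, List.any_eq_true,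
    List.mem_toFinset, cl_iff hG]

theorem irr_iff (l : List (Fin n)) : Irredundant G l.toFinset ↔ irrB a l = true := by
  simp only [Irredundant, irrB, List.all_eq_true, List.any_eq_true, List.mem_finRange, true_and,
    List.mem_toFinset, Bool.and_eq_true, cl_iff hG, Bool.or_eq_true, decide_eq_true_eq,
    Bool.not_eq_true']
  constructor
  · intro h s hs
    obtain ⟨v, hv, hv'⟩ := h s hs
    refine ⟨v, hv, fun t ht => ?_⟩
    by_cases hts : t = s
    · exact Or.inl hts
    · right
      rw [← Bool.not_eq_true, cl_iff hG]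
      exact hv' t ht hts
  · intro h s hs
    obtain ⟨v, hv, hv'⟩ := h s hs
    refine ⟨v, hv, fun t ht hts => ?_⟩
    rcases hv' t ht with h1 | h1
    · exact absurd h1 hts
    · rw [← Bool.not_eq_true, cl_iff hG] at h1
      exact h1

omit hG in
theorem irr_mono {S T : Finset (Fin n)} (hST : S ⊆ T) (h : Irredundant G T) :
    Irredundant G S := by
  intro s hs
  obtain ⟨v, hv, hv'⟩ := h s (hST hs)
  exact ⟨v, hv, fun t ht => hv' t (hST ht)⟩

omit hG in
theorem dom_mono {S T : Finset (Fin n)} (hST : S ⊆ T) (h : Dominating G S) :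
    Dominating G T := by
  intro v
  obtain ⟨s, hs, h'⟩ := h v
  exact ⟨s, hST hs, h'⟩

theorem max_of (l : List (Fin n)) (h : maxB a l = true) : MaxIrredundant G l.toFinset := by
  simp only [maxB, Bool.and_eq_true, List.all_eq_true, List.mem_finRange, true_implies,
    Bool.or_eq_true, Bool.not_eq_true'] at h
  refine ⟨(irr_iff hG l).2 h.1, ?_⟩
  intro T hT hirr
  obtain ⟨v, hvT, hvl⟩ := Finset.exists_of_ssubset hT
  have h1 := h.2 v
  have h2 : ¬ l.contains v = true := by
    simpa using hvl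
  have h3 : irrB a (v :: l) = false := by
    rcases h1 with h1 | h1
    · exact absurd h1 h2
    · exact h1
  have h4 : Irredundant G (v :: l).toFinset := by
    refine irr_mono ?_ hirr
    intro x hx
    simp only [List.toFinset_cons, Finset.mem_insert] at hx
    rcases hx with rfl | hx
    · exact hvT
    · exact hT.1 hx
  rw [irr_iff hG, h3] at h4
  exact absurd h4 (by simp)

theorem gamma_le (l : List (Fin n)) (h : domB a l = true) : gamma G ≤ l.length := by
  have h1 : gamma G ≤ l.toFinset.card := Nat.sInf_le ⟨l.toFinset, (dom_iff hG l).2 h, rfl⟩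
  exact h1.trans (List.toFinset_card_le l)

theorem ir_le (l : List (Fin n)) (h : maxB a l = true) : ir G ≤ l.length := by
  have h1 : ir G ≤ l.toFinset.card := Nat.sInf_le ⟨l.toFinset, max_of hG l h, rfl⟩
  exact h1.trans (List.toFinset_card_le l)

omit hG in
theorem sub_two [Nonempty (Fin n)] (S : Finset (Fin n)) (h : S.card ≤ 2) :
    ∃ x y, S ⊆ {x, y} := by
  obtain ⟨z⟩ := ‹Nonempty (Fin n)›
  have h' : S.card = 0 ∨ S.card = 1 ∨ S.card = 2 := by omega
  rcases h' with h | h | h
  · exact ⟨z, z, by rw [Finset.card_eq_zero.1 h]; simp⟩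
  · obtain ⟨x, rfl⟩ := Finset.card_eq_one.1 h
    exact ⟨x, x, by simp⟩
  · obtain ⟨x, y, _, rfl⟩ := Finset.card_eq_two.1 h
    exact ⟨x, y, subset_rfl⟩

omit hG in
theorem sub_three [Nonempty (Fin n)] (S : Finset (Fin n)) (h : S.card ≤ 3) :
    ∃ x y z, S ⊆ {x, y, z} := by
  have h' : S.card ≤ 2 ∨ S.card = 3 := by omega
  rcases h' with h | h
  · obtain ⟨x, y, hxy⟩ := sub_two S h
    exact ⟨x, y, y, by simpa using hxy⟩
  · obtain ⟨x, y, z, _, _, _, rfl⟩ := Finset.card_eq_three.1 h
    exact ⟨x, y, z, subset_rfl⟩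

omit hG in
theorem le_of_all {P : Finset (Fin n) → Prop} (hne : ∃ S, P S) (k : ℕ)
    (h : ∀ S, P S → k ≤ S.card) : k ≤ sInf {m | ∃ S, P S ∧ S.card = m} := by
  obtain ⟨S, hS⟩ := hne
  have hmem := Nat.sInf_mem (s := {m | ∃ S, P S ∧ S.card = m}) ⟨S.card, S, hS, rfl⟩
  obtain ⟨T, hT, hcard⟩ := hmem
  rw [← hcard]
  exact h T hT

theorem le_gamma3 [Nonempty (Fin n)] (h : ∀ x y, domB a [x, y] = false) : 3 ≤ gamma G := by
  refine le_of_all ⟨Finset.univ, fun v => ⟨v, Finset.mem_univ _, Or.inl rfl⟩⟩ 3 ?_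
  intro S hS
  by_contra hlt
  obtain ⟨x, y, hxy⟩ := sub_two S (by omega)
  have h1 : Dominating G [x, y].toFinset := dom_mono (by simpa using hxy) hS
  rw [dom_iff hG, h x y] at h1
  exact absurd h1 (by simp)

theorem le_gamma4 [Nonempty (Fin n)] (h : ∀ x y z, domB a [x, y, z] = false) : 4 ≤ gamma G := by
  refine le_of_all ⟨Finset.univ, fun v => ⟨v, Finset.mem_univ _, Or.inl rfl⟩⟩ 4 ?_
  intro S hS
  by_contra hlt
  obtain ⟨x, y, z, hxyz⟩ := sub_three S (by omega)
  have h1 : Dominating G [x, y, z].toFinset := dom_mono (by simpa using hxyz) hS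
  rw [dom_iff hG, h x y z] at h1
  exact absurd h1 (by simp)

theorem le_ir3 [Nonempty (Fin n)] (w : List (Fin n)) (hw : maxB a w = true)
    (h1 : ∀ x : Fin n, ∃ y, y ≠ x ∧ irrB a [y, x] = true)
    (h2 : ∀ x y : Fin n, x ≠ y → irrB a [x, y] = true →
      ∃ z, z ≠ x ∧ z ≠ y ∧ irrB a [z, x, y] = true) : 3 ≤ ir G := by
  refine le_of_all ⟨_, max_of hG w hw⟩ 3 ?_
  intro S hS
  by_contra hlt
  have h' : S.card = 0 ∨ S.card = 1 ∨ S.card = 2 := by omega
  rcases h' with h | h | h
  · obtain ⟨z⟩ := ‹Nonempty (Fin n)›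
    rw [Finset.card_eq_zero] at h
    subst h
    obtain ⟨y, hy, hirr⟩ := h1 z
    have h3 : Irredundant G [y, z].toFinset := (irr_iff hG _).2 hirr
    refine hS.2 {z} ?_ (irr_mono (by simp) h3)
    simp
  · obtain ⟨x, rfl⟩ := Finset.card_eq_one.1 h
    obtain ⟨y, hy, hirr⟩ := h1 x
    have h3 : Irredundant G [y, x].toFinset := (irr_iff hG _).2 hirr
    refine hS.2 _ ?_ h3
    rw [Finset.ssubset_iff_of_subset (by simp)]
    exact ⟨y, by simp, by simpa using hy⟩
  · obtain ⟨x, y, hxy, rfl⟩ := Finset.card_eq_two.1 h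
    have h3 : irrB a [x, y] = true := by
      rw [← irr_iff hG]
      simpa using hS.1
    obtain ⟨z, hzx, hzy, hirr⟩ := h2 x y hxy h3
    have h4 : Irredundant G [z, x, y].toFinset := (irr_iff hG _).2 hirr
    refine hS.2 _ ?_ h4
    rw [Finset.ssubset_iff_of_subset (by simp)]
    exact ⟨z, by simp, by simp [hzx, hzy]⟩

theorem add_iff (u v : Fin n) (huv : u ≠ v) (i j : Fin n) :
    (G ⊔ SimpleGraph.edge u v).Adj i j ↔ addE a u v i j = true := by
  simp only [SimpleGraph.sup_adj, SimpleGraph.edge_adj, addE, Bool.or_eq_true, Bool.and_eq_true,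
    decide_eq_true_eq, hG]
  constructor
  · rintro (h | ⟨⟨h1, h2⟩ | ⟨h1, h2⟩, h3⟩)
    · exact Or.inl (Or.inl h)
    · exact Or.inl (Or.inr ⟨h1, h2⟩)
    · exact Or.inr ⟨h1, h2⟩
  · rintro ((h | ⟨h1, h2⟩) | ⟨h1, h2⟩)
    · exact Or.inl h
    · refine Or.inr ⟨Or.inl ⟨h1, h2⟩, ?_⟩
      rw [h1, h2]
      exact huv
    · refine Or.inr ⟨Or.inr ⟨h1, h2⟩, ?_⟩
      rw [h1, h2]
      exact huv.symm

end comp

/-! ## The first graph -/

/-- The rows of the adjacency matrix, as bit masks. -/
def rows1 : List ℕ := [586, 665, 1568, 19, 1066, 596, 1057, 770, 128, 1191, 596]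

def a1 (i j : Fin 11) : Bool := (rows1.getD i.1 0).testBit j.1

/-- For every missing edge `uv` (with `u < v`) a dominating set of `G + uv`. -/
def wit1 : List (Fin 11 × Fin 11 × List (Fin 11)) :=
  [(0, 2, [0, 4, 7]), (0, 4, [0, 2, 7]), (0, 5, [0, 7, 10]), (0, 7, [4, 5, 7]),
  (0, 8, [0, 1, 2]), (0, 10, [0, 5, 7]), (1, 2, [1, 6, 7]), (1, 5, [1, 7, 10]),
  (1, 6, [1, 2, 7]), (1, 8, [0, 1, 2]), (1, 10, [1, 5, 7]), (2, 3, [3, 6, 7]),
  (2, 4, [0, 2, 7]), (2, 6, [1, 2, 7]), (2, 7, [0, 4, 7]), (2, 8, [0, 1, 2]),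
  (3, 5, [3, 7, 10]), (3, 6, [2, 3, 7]), (3, 7, [5, 6, 7]), (3, 8, [0, 3, 9]),
  (3, 9, [5, 7, 9]), (3, 10, [3, 5, 7]), (4, 6, [4, 7, 9]), (4, 7, [0, 2, 7]),
  (4, 8, [0, 2, 8]), (4, 9, [0, 7, 9]), (5, 7, [0, 7, 10]), (5, 8, [0, 5, 9]),
  (5, 10, [0, 5, 7]), (6, 7, [1, 2, 7]), (6, 8, [1, 2, 6]), (6, 9, [1, 7, 9]),
  (7, 10, [0, 5, 7]), (8, 9, [0, 1, 9]), (8, 10, [0, 5, 8])]

theorem sym1 : ∀ i j, a1 i j = a1 j i := by decide +kernel

theorem irrefl1 : ∀ i, a1 i i = false := by decide +kernel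

def G1 : SimpleGraph (Fin 11) where
  Adj i j := a1 i j = true
  symm := ⟨fun i j h => by rw [sym1]; exact h⟩
  loopless := ⟨fun i h => by rw [irrefl1] at h; exact absurd h (by simp)⟩

theorem hG1 (i j : Fin 11) : G1.Adj i j ↔ a1 i j = true := Iff.rfl

theorem low1 : ∀ x y z, domB a1 [x, y, z] = false := by decide +kernel

theorem wit1_ok : ∀ u v : Fin 11, u < v → a1 u v = false →
    wit1.any (fun p => decide (p.1 = u) && decide (p.2.1 = v) && decide (p.2.2.length = 3) &&
      domB (addE a1 u v) p.2.2) = true := by decide +kernel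

theorem ir1 : maxB a1 [0, 1, 4] = true := by decide +kernel

theorem ir1e : maxB (addE a1 0 2) [0, 1, 4] = true := by decide +kernel

theorem ir1e_one : ∀ x : Fin 11, ∃ y, y ≠ x ∧ irrB (addE a1 0 2) [y, x] = true := by
  decide +kernel

theorem ir1e_two : ∀ x y : Fin 11, x ≠ y → irrB (addE a1 0 2) [x, y] = true →
      ∃ z, z ≠ x ∧ z ≠ y ∧ irrB (addE a1 0 2) [z, x, y] = true := by
  decide +kernel

theorem addE_comm {n : ℕ} (a : Fin n → Fin n → Bool) (u v : Fin n) : addE a u v = addE a v u := by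
  funext i j
  unfold addE
  generalize a i j = p
  generalize decide (i = u) = q
  generalize decide (j = v) = r
  generalize decide (i = v) = s
  generalize decide (j = u) = t
  revert p q r s t
  decide

theorem crit1 : EdgeCritical gamma G1 := by
  have hlow : 4 ≤ gamma G1 := le_gamma4 hG1 low1
  have key : ∀ u v : Fin 11, u < v → ¬ G1.Adj u v → gamma (G1 ⊔ SimpleGraph.edge u v) ≤ 3 := by
    intro u v huv hadj
    have h0 : a1 u v = false := by
      rw [hG1] at hadj
      simpa using hadj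
    have h1 := wit1_ok u v huv h0
    rw [List.any_eq_true] at h1
    obtain ⟨p, _, hp⟩ := h1
    simp only [Bool.and_eq_true, decide_eq_true_eq] at hp
    have h2 := gamma_le (add_iff hG1 u v huv.ne) p.2.2 hp.2
    rw [hp.1.2] at h2
    exact h2
  intro u v huv hadj
  rcases lt_or_gt_of_ne huv with h | h
  · exact lt_of_le_of_lt (key u v h hadj) hlow
  · have := key v u h (fun hc => hadj hc.symm)
    rw [SimpleGraph.edge_comm] at this
    exact lt_of_le_of_lt this hlow

theorem ncrit1 : ¬ EdgeCritical ir G1 := by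
  intro h
  have h1 := h 0 2 (by decide) (by
    intro hc
    rw [hG1] at hc
    exact absurd hc (by decide +kernel))
  have h2 : ir G1 ≤ 3 := ir_le hG1 [0, 1, 4] ir1
  have h3 : 3 ≤ ir (G1 ⊔ SimpleGraph.edge 0 2) :=
    le_ir3 (add_iff hG1 0 2 (by decide)) [0, 1, 4] ir1e ir1e_one ir1e_two
  omega

/-! ## The second graph -/

/-- The rows of the adjacency matrix, as bit masks. -/
def rows2 : List ℕ := [768, 644, 386, 624, 616, 344, 184, 838, 677, 411]

def a2 (i j : Fin 10) : Bool := (rows2.getD i.1 0).testBit j.1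

/-- For every missing edge `uv` (with `u < v`) a maximal irredundant set of `G + uv`. -/
def wit2 : List (Fin 10 × Fin 10 × List (Fin 10)) :=
  [(0, 1, [1, 5]), (0, 2, [2, 3]), (0, 3, [2, 3]), (0, 4, [2, 4]), (0, 5, [1, 5]),
  (0, 6, [6, 7]), (0, 7, [3, 7]), (1, 3, [3, 8]), (1, 4, [4, 8]), (1, 5, [5, 8]),
  (1, 6, [6, 8]), (1, 8, [3, 8]), (2, 3, [3, 9]), (2, 4, [4, 9]), (2, 5, [5, 9]),
  (2, 6, [6, 9]), (2, 9, [3, 9]), (3, 7, [3, 5]), (3, 8, [3, 6]), (4, 7, [4, 5]),
  (4, 8, [4, 6]), (5, 7, [3, 5]), (5, 9, [3, 6]), (6, 8, [1, 2]), (6, 9, [1, 2])]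

theorem sym2 : ∀ i j, a2 i j = a2 j i := by decide +kernel

theorem irrefl2 : ∀ i, a2 i i = false := by decide +kernel

def G2 : SimpleGraph (Fin 10) where
  Adj i j := a2 i j = true
  symm := ⟨fun i j h => by rw [sym2]; exact h⟩
  loopless := ⟨fun i h => by rw [irrefl2] at h; exact absurd h (by simp)⟩

theorem hG2 (i j : Fin 10) : G2.Adj i j ↔ a2 i j = true := Iff.rfl

theorem wit2_ok : ∀ u v : Fin 10, u < v → a2 u v = false →
    wit2.any (fun p => decide (p.1 = u) && decide (p.2.1 = v) && decide (p.2.2.length = 2) &&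
      maxB (addE a2 u v) p.2.2) = true := by decide +kernel

theorem ir2 : maxB a2 [0, 1, 3] = true := by decide +kernel

theorem ir2_one : ∀ x : Fin 10, ∃ y, y ≠ x ∧ irrB a2 [y, x] = true := by
  decide +kernel

theorem ir2_two : ∀ x y : Fin 10, x ≠ y → irrB a2 [x, y] = true →
      ∃ z, z ≠ x ∧ z ≠ y ∧ irrB a2 [z, x, y] = true := by
  decide +kernel

theorem dom2 : domB a2 [0, 1, 3] = true := by decide +kernel

theorem low2 : ∀ x y, domB (addE a2 3 7) [x, y] = false := by decide +kernel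

theorem crit2 : EdgeCritical ir G2 := by
  have hlow : 3 ≤ ir G2 := le_ir3 hG2 [0, 1, 3] ir2 ir2_one ir2_two
  have key : ∀ u v : Fin 10, u < v → ¬ G2.Adj u v → ir (G2 ⊔ SimpleGraph.edge u v) ≤ 2 := by
    intro u v huv hadj
    have h0 : a2 u v = false := by
      rw [hG2] at hadj
      simpa using hadj
    have h1 := wit2_ok u v huv h0
    rw [List.any_eq_true] at h1
    obtain ⟨p, _, hp⟩ := h1
    simp only [Bool.and_eq_true, decide_eq_true_eq] at hp
    have h2 := ir_le (add_iff hG2 u v huv.ne) p.2.2 hp.2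
    rw [hp.1.2] at h2
    exact h2
  intro u v huv hadj
  rcases lt_or_gt_of_ne huv with h | h
  · exact lt_of_le_of_lt (key u v h hadj) hlow
  · have := key v u h (fun hc => hadj hc.symm)
    rw [SimpleGraph.edge_comm] at this
    exact lt_of_le_of_lt this hlow

theorem ncrit2 : ¬ EdgeCritical gamma G2 := by
  intro h
  have h1 := h 3 7 (by decide) (by
    intro hc
    rw [hG2] at hc
    exact absurd hc (by decide +kernel))
  have h2 : gamma G2 ≤ 3 := gamma_le hG2 [0, 1, 3] dom2
  have h3 : 3 ≤ gamma (G2 ⊔ SimpleGraph.edge 3 7) :=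
    le_gamma3 (add_iff hG2 3 7 (by decide)) low2
  omega

/-- **Both classes differ.**  Some graph on 11 vertices is `γ`-edge-critical but not
`ir`-edge-critical, and some graph on 10 vertices is `ir`-edge-critical but not
`γ`-edge-critical. -/
theorem result :
    (∃ G : SimpleGraph (Fin 11), EdgeCritical gamma G ∧ ¬ EdgeCritical ir G) ∧
    (∃ G : SimpleGraph (Fin 10), EdgeCritical ir G ∧ ¬ EdgeCritical gamma G) :=
  ⟨⟨G1, crit1, ncrit1⟩, ⟨G2, crit2, ncrit2⟩⟩

end Pool.Agent.Results.MP_7f565b_co.CriticalDiffer
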